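import Pool.Agent.H33.HH.TC

/-!
# Half of all: intersections of cosets of fractional ideals (row GRB)
-/

set_option autoImplicit false

open NumberField Complex Filter Topology MeasureTheory
open scoped ContDiff nonZeroDivisors

namespace Pool.Agent.H48.HH

open Pool.Agent.H33.HH Pool.Agent.H28.RC Pool.Agent.H37.CV

section

variable {K : Type} [Field K] [NumberField K]

theorem qf_mem {b : Ideal (𝓞 K)} (hb : b ≠ ⊥) (c : Ideal (𝓞 K)) (γ : K) :
    γ ∈ qf c b ↔ ∀ y ∈ b, ∃ x ∈ c, algebraMap (𝓞 K) K y * γ = algebraMap (𝓞 K) K x := by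
  have hb' : (b : FractionalIdeal (𝓞 K)⁰ K) ≠ 0 := FractionalIdeal.coeIdeal_ne_zero.2 hb
  have h1 : γ ∈ qf c b ↔ FractionalIdeal.spanSingleton (𝓞 K)⁰ γ ≤ qf c b :=
    FractionalIdeal.spanSingleton_le_iff_mem.symm
  rw [h1]
  have h2 : FractionalIdeal.spanSingleton (𝓞 K)⁰ γ ≤ qf c b ↔
      FractionalIdeal.spanSingleton (𝓞 K)⁰ γ * (b : FractionalIdeal (𝓞 K)⁰ K) ≤
        (c : FractionalIdeal (𝓞 K)⁰ K) := by
    unfold qf
    constructor
    · intro h
      calc FractionalIdeal.spanSingleton (𝓞 K)⁰ γ * (b : FractionalIdeal (𝓞 K)⁰ K)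
          ≤ ((c : FractionalIdeal (𝓞 K)⁰ K) * ((b : FractionalIdeal (𝓞 K)⁰ K))⁻¹) *
            (b : FractionalIdeal (𝓞 K)⁰ K) := by gcongr
        _ = c := by rw [mul_assoc, inv_mul_cancel₀ hb', mul_one]
    · intro h
      calc FractionalIdeal.spanSingleton (𝓞 K)⁰ γ
          = (FractionalIdeal.spanSingleton (𝓞 K)⁰ γ * (b : FractionalIdeal (𝓞 K)⁰ K)) *
            ((b : FractionalIdeal (𝓞 K)⁰ K))⁻¹ := by
            rw [mul_assoc, mul_inv_cancel₀ hb', mul_one]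
        _ ≤ _ := by gcongr
  rw [h2, FractionalIdeal.spanSingleton_mul_le_iff]
  constructor
  · intro h y hy
    obtain ⟨x, hx, hxy⟩ := (FractionalIdeal.mem_coeIdeal _).1
      (h _ (FractionalIdeal.mem_coeIdeal_of_mem _ hy))
    exact ⟨x, hx, by rw [hxy, mul_comm]⟩
  · intro h z hz
    obtain ⟨y, hy, rfl⟩ := (FractionalIdeal.mem_coeIdeal _).1 hz
    obtain ⟨x, hx, hxy⟩ := h y hy
    rw [mul_comm, hxy]
    exact FractionalIdeal.mem_coeIdeal_of_mem _ hx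

theorem qf_sup (b c d : Ideal (𝓞 K)) : qf (c ⊔ d) b = qf c b + qf d b := by
  unfold qf
  rw [FractionalIdeal.coeIdeal_sup, add_mul]

theorem qf_inf {b : Ideal (𝓞 K)} (hb : b ≠ ⊥) (c d : Ideal (𝓞 K)) (γ : K) :
    γ ∈ qf (c ⊓ d) b ↔ γ ∈ qf c b ∧ γ ∈ qf d b := by
  rw [qf_mem hb, qf_mem hb, qf_mem hb]
  have hinj : Function.Injective (algebraMap (𝓞 K) K) := RingOfIntegers.coe_injective
  constructor
  · intro h
    refine ⟨fun y hy => ?_, fun y hy => ?_⟩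
    · obtain ⟨x, hx, hxy⟩ := h y hy
      exact ⟨x, hx.1, hxy⟩
    · obtain ⟨x, hx, hxy⟩ := h y hy
      exact ⟨x, hx.2, hxy⟩
  · rintro ⟨h1, h2⟩ y hy
    obtain ⟨x, hx, hxy⟩ := h1 y hy
    obtain ⟨x', hx', hxy'⟩ := h2 y hy
    have he : x = x' := hinj (by rw [← hxy, ← hxy'])
    exact ⟨x, ⟨hx, by rw [he]; exact hx'⟩, hxy⟩

theorem fr_add {I : FractionalIdeal (𝓞 K)⁰ K} {x y : K} (hx : x ∈ I) (hy : y ∈ I) :
    x + y ∈ I := by
  have h : x + y ∈ (I : Submodule (𝓞 K) K) := Submodule.add_mem _ hx hy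
  exact h

theorem fr_sub {I : FractionalIdeal (𝓞 K)⁰ K} {x y : K} (hx : x ∈ I) (hy : y ∈ I) :
    x - y ∈ I := by
  have h : x - y ∈ (I : Submodule (𝓞 K) K) := Submodule.sub_mem _ hx hy
  exact h

theorem fr_neg {I : FractionalIdeal (𝓞 K)⁰ K} {x : K} (hx : x ∈ I) : -x ∈ I := by
  have h : -x ∈ (I : Submodule (𝓞 K) K) := Submodule.neg_mem _ hx
  exact h

end

theorem pf_GRB : T_GRB := by
  intro K _ _ b c d hb hc hd
  have hinf : c ⊓ d ≠ ⊥ := by
    intro h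
    have h1 : c * d ≤ ⊥ := by
      rw [← h]
      exact Ideal.mul_le_inf
    exact mul_ne_zero hc hd (le_bot_iff.1 h1)
  refine ⟨?_, ?_, ?_, ?_⟩
  · intro h
    have hle : b ≤ c ⊔ d := Ideal.le_of_dvd h
    have h1 : (1 : K) ∈ qf (c ⊔ d) b := by
      rw [qf_mem hb]
      intro y hy
      exact ⟨y, hle hy, mul_one _⟩
    rw [qf_sup, FractionalIdeal.mem_add] at h1
    obtain ⟨γ₀, h0, j, hj, h01⟩ := h1
    have h0' : γ₀ - 1 ∈ qf d b := by
      have : γ₀ - 1 = -j := by rw [← h01]; ring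
      rw [this]
      exact fr_neg hj
    refine ⟨γ₀, fun γ => ?_⟩
    rw [qf_inf hb]
    constructor
    · rintro ⟨h2, h3⟩
      refine ⟨fr_sub h2 h0, ?_⟩
      have : γ - γ₀ = (γ - 1) - (γ₀ - 1) := by ring
      rw [this]
      exact fr_sub h3 h0'
    · rintro ⟨h2, h3⟩
      refine ⟨?_, ?_⟩
      · have : γ = (γ - γ₀) + γ₀ := by ring
        rw [this]
        exact fr_add h2 h0
      · have : γ - 1 = (γ - γ₀) + (γ₀ - 1) := by ring
        rw [this]
        exact fr_add h3 h0'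
  · rintro h γ ⟨h1, h2⟩
    apply h
    rw [Ideal.dvd_iff_le]
    intro y hy
    rw [qf_mem hb] at h1 h2
    obtain ⟨x, hx, hxy⟩ := h1 y hy
    obtain ⟨z, hz, hzy⟩ := h2 y hy
    have hinj : Function.Injective (algebraMap (𝓞 K) K) := RingOfIntegers.coe_injective
    have he : y = x + -z := by
      apply hinj
      rw [map_add, map_neg, ← hxy, ← hzy]
      ring
    rw [he]
    exact Submodule.add_mem_sup hx (neg_mem hz)
  · unfold qf
    exact mul_ne_zero (FractionalIdeal.coeIdeal_ne_zero.2 hinf)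
      (inv_ne_zero (FractionalIdeal.coeIdeal_ne_zero.2 hb))
  · have hb0 : (Ideal.absNorm b : ℝ) ≠ 0 := by
      rw [Ne, Nat.cast_eq_zero]
      exact fun h => hb (Ideal.absNorm_eq_zero_iff.1 h)
    have h1 : ((FractionalIdeal.absNorm (qf (c ⊓ d) b) : ℚ) : ℝ) =
        (Ideal.absNorm (c ⊓ d) : ℝ) * (Ideal.absNorm b : ℝ)⁻¹ := by
      unfold qf
      rw [map_mul, map_inv₀, FractionalIdeal.coeIdeal_absNorm, FractionalIdeal.coeIdeal_absNorm]
      push_cast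
      rfl
    have h2 : (Ideal.absNorm (c ⊔ d) : ℝ) * (Ideal.absNorm (c ⊓ d) : ℝ) =
        (Ideal.absNorm c : ℝ) * (Ideal.absNorm d : ℝ) := by
      rw [← Nat.cast_mul, ← Nat.cast_mul, ← map_mul, ← map_mul, Ideal.sup_mul_inf]
    rw [h1]
    unfold nm
    rw [← h2]
    field_simp

end Pool.Agent.H48.HH
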