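import Pool.Agent.H37.HH.Targets4

/-!
# Half of all: the common divisor (row KGC)
-/

set_option autoImplicit false

open NumberField Complex Filter Topology MeasureTheory
open scoped ContDiff nonZeroDivisors

namespace Pool.Agent.H48.HH

open Pool.Agent.H33.HH Pool.Agent.H28.RC Pool.Agent.H37.CV

section

variable {K : Type} [Field K] [NumberField K]

/-- a common factor can be cancelled -/
theorem mu_mul {g : Ideal (𝓞 K)} (hg : g ≠ ⊥) (γ : K) (I J : Ideal (𝓞 K)) :
    Mu γ (g * I) (g * J) ↔ Mu γ I J := by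
  unfold Mu
  rw [FractionalIdeal.coeIdeal_mul, FractionalIdeal.coeIdeal_mul, mul_left_comm]
  exact mul_right_inj' (FractionalIdeal.coeIdeal_ne_zero.2 hg)

theorem mu_mem {γ : K} {I J : Ideal (𝓞 K)} (h : Mu γ I J) {y : 𝓞 K} (hy : y ∈ I) :
    ∃ x ∈ J, γ * algebraMap (𝓞 K) K y = algebraMap (𝓞 K) K x := by
  have h1 : γ * algebraMap (𝓞 K) K y ∈ (J : FractionalIdeal (𝓞 K)⁰ K) := by
    unfold Mu at h
    rw [← h]
    exact FractionalIdeal.mul_mem_mul (FractionalIdeal.mem_spanSingleton_self _ _)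
      (FractionalIdeal.mem_coeIdeal_of_mem _ hy)
  obtain ⟨x, hx, hx'⟩ := (FractionalIdeal.mem_coeIdeal _).1 h1
  exact ⟨x, hx, hx'.symm⟩

theorem mu_mem' {γ : K} {I J : Ideal (𝓞 K)} (h : Mu γ I J) {x : 𝓞 K} (hx : x ∈ J) :
    ∃ y ∈ I, γ * algebraMap (𝓞 K) K y = algebraMap (𝓞 K) K x := by
  have h1 : algebraMap (𝓞 K) K x ∈
      FractionalIdeal.spanSingleton (𝓞 K)⁰ γ * (I : FractionalIdeal (𝓞 K)⁰ K) := by
    unfold Mu at h
    rw [h]
    exact FractionalIdeal.mem_coeIdeal_of_mem _ hx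
  obtain ⟨y', hy', hxy⟩ := FractionalIdeal.mem_singleton_mul.1 h1
  obtain ⟨y, hy, hyy⟩ := (FractionalIdeal.mem_coeIdeal _).1 hy'
  exact ⟨y, hy, by rw [hyy, hxy]⟩

end

theorem pf_KGC : T_KGC := by
  intro K _ _ _ k q I J hI hJ
  refine ⟨?_, ?_⟩
  · intro h
    have h1 : {γ : K | Mu γ J I ∧ ∃ t, Mu (γ - 1) J ((k * q) * t)}.Nonempty :=
      Set.nonempty_of_ncard_ne_zero h
    obtain ⟨γ, hγ, t, ht⟩ := h1
    have hkq : k * q * t ≤ q := (Ideal.mul_le_left).trans Ideal.mul_le_right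
    have hinj : Function.Injective (algebraMap (𝓞 K) K) := RingOfIntegers.coe_injective
    apply le_antisymm
    · refine sup_le ?_ le_sup_right
      intro x hx
      obtain ⟨y, hy, hyx⟩ := mu_mem' hγ hx
      obtain ⟨z, hz, hzy⟩ := mu_mem ht hy
      have he : x = y + z := by
        apply hinj
        rw [map_add, ← hzy, ← hyx]
        ring
      rw [he]
      exact Submodule.add_mem_sup hy (hkq hz)
    · refine sup_le ?_ le_sup_right
      intro y hy
      obtain ⟨x, hx, hyx⟩ := mu_mem hγ hy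
      obtain ⟨z, hz, hzy⟩ := mu_mem ht hy
      have he : y = x + -z := by
        apply hinj
        rw [map_add, map_neg, ← hzy, ← hyx]
        ring
      rw [he]
      exact Submodule.add_mem_sup hx (neg_mem (hkq hz))
  · intro g hg
    unfold kap
    congr 1
    ext γ
    have h2 : ∀ t : Ideal (𝓞 K), k * (g * q) * t = g * (k * q * t) := fun t => by ring
    simp only [Set.mem_ofPred_eq, mu_mul hg, h2]

end Pool.Agent.H48.HH
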